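import Mathlib

/-!
MP_50bb2e_nt: quadratic characters of a number field, conductors, local triviality,
densities ordered by the norm of the conductor, towers of multiquadratic extensions.
-/

open NumberField IsDedekindDomain Filter Topology

namespace Pool.Agent.Lib.MP_50bb2e_nt.MT

/-- The group of quadratic characters of `F` (the trivial one included), written as
`F^x / F^x2` : the class of `d` is the character of `F(sqrt d) / F`. -/
abbrev Quad (F : Type) [Field F] := Fˣ ⧸ (powMonoidHom 2 : Fˣ →* Fˣ).range

/-- The class of `d`. -/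
def cls {F : Type} [Field F] (d : Fˣ) : Quad F := QuotientGroup.mk d

/-- finite places -/
abbrev Pr (F : Type) [Field F] [NumberField F] := HeightOneSpectrum (𝓞 F)

/-- all places -/
abbrev Pl (F : Type) [Field F] [NumberField F] := Pr F ⊕ InfinitePlace F

/-- The norm of a finite place. -/
noncomputable def nm {F : Type} [Field F] [NumberField F] (v : Pr F) : ℕ :=
  Ideal.absNorm v.asIdeal

/-- The local component at the place `p` is trivial. -/
def TrivAt {F : Type} [Field F] [NumberField F] : Pl F → Quad F → Prop
  | .inl v, q => ∃ d : Fˣ, cls d = q ∧ IsSquare (algebraMap F (v.adicCompletion F) (d : F))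
  | .inr w, q => ∃ d : Fˣ, cls d = q ∧ IsSquare (algebraMap F w.Completion (d : F))

/-- Exponent at `v` of the relative discriminant of `F(sqrt d)/F` (the conductor of the
quadratic character): least `ord_v D` over the integral `D` in `d F^x2` which are squares
modulo `4`. -/
noncomputable def condExp {F : Type} [Field F] [NumberField F] (v : Pr F) (q : Quad F) : ℕ :=
  sInf {n : ℕ | ∃ (D : Fˣ) (a : F), cls D = q ∧
    v.valuation F (D : F) = WithZero.exp (-(n : ℤ)) ∧ v.valuation F a ≤ 1 ∧
    v.valuation F ((D : F) - a ^ 2) ≤ v.valuation F 4}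

/-- Norm of the conductor. -/
noncomputable def condNorm {F : Type} [Field F] [NumberField F] (q : Quad F) : ℕ :=
  ∏ᶠ v : Pr F, nm v ^ condExp v q

/-- Number of characters in `A` with conductor norm at most `X`. -/
noncomputable def count {F : Type} [Field F] [NumberField F] (A : Set (Quad F)) (X : ℝ) : ℕ :=
  Set.ncard {q : Quad F | q ∈ A ∧ (condNorm q : ℝ) ≤ X}

/-- `B` has density one in `A`. -/
def DensityOne {F : Type} [Field F] [NumberField F] (B A : Set (Quad F)) : Prop :=
  Tendsto (fun X : ℝ => (count (A ∩ B) X : ℝ) / (count A X : ℝ)) atTop (𝓝 1)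

/-- Question Q1 for the order function `o` (`o q = ord_{s=1/2} L(s, pi x chi_q)`, whose parity is
the root number): for every `q0` and finite `S`, in the family of the `q` with the root number of
`q0` and the local components of `q0` at `S`, the least possible order has density one. -/
def Q1 {F : Type} [Field F] [NumberField F] (o : Quad F → ℕ) : Prop :=
  ∀ (q0 : Quad F) (S : Set (Pl F)), S.Finite →
    DensityOne {q | o q = o q0 % 2} {q | o q % 2 = o q0 % 2 ∧ ∀ p ∈ S, TrivAt p (q * q0)}

/-- The parity depends only on the local components at a finite set of places. -/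
def LocalParity {F : Type} [Field F] [NumberField F] (o : Quad F → ℕ) : Prop :=
  ∃ T : Set (Pl F), T.Finite ∧
    ∀ q q' : Quad F, (∀ p ∈ T, TrivAt p (q * q')) → o q % 2 = o q' % 2

/-- A rule: after the choice of `psi_0, ..., psi_(i-1)` it prescribes a set of primes with divergent
sum of the reciprocals of the norms and a finite set of places. -/
structure Rule (F : Type) [Field F] [NumberField F] where
  P : List (Quad F) → Set (Pr F)
  S : List (Quad F) → Set (Pl F)
  diverges : ∀ L, ¬ Summable (fun v : P L => (1 : ℝ) / (nm (v : Pr F) : ℝ))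
  finite : ∀ L, (S L).Finite

/-- `psi_0, psi_1, ...` obeys the rule: `psi_i` is ramified exactly at two primes of the prescribed
set, trivial at the prescribed places, and no two `psi_i` have a common ramified prime. -/
def Obeys {F : Type} [Field F] [NumberField F] (R : Rule F) (psi : ℕ → Quad F) : Prop :=
  (∀ i, ∃ v w : Pr F, v ≠ w ∧ v ∈ R.P ((List.range i).map psi) ∧
    w ∈ R.P ((List.range i).map psi) ∧ {u : Pr F | condExp u (psi i) ≠ 0} = {v, w}) ∧
  (∀ i, ∀ p ∈ R.S ((List.range i).map psi), TrivAt p (psi i)) ∧
  (∀ i j, i ≠ j → ∀ u : Pr F, ¬ (condExp u (psi i) ≠ 0 ∧ condExp u (psi j) ≠ 0))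

/-- Sum of `o` over the coset `q <psi_0, ..., psi_(k-1)>`, the order over the multiquadratic field
`M_k = F(sqrt psi_0, ..., sqrt psi_(k-1))`. -/
def towerOrder {F : Type} [Field F] (o : Quad F → ℕ) (psi : ℕ → Quad F) (k : ℕ) (q : Quad F) : ℕ :=
  ∑ I ∈ (Finset.range k).powerset, o (q * ∏ i ∈ I, psi i)

end Pool.Agent.Lib.MP_50bb2e_nt.MT
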