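import Pool.Agent.Lib.MP_50bb2e_nt.MT.Defs

/-!
Statements of the modules (board mt_modules). Paper proofs: Paper.md in this folder.
-/

open NumberField IsDedekindDomain Filter Topology

namespace Pool.Agent.Lib.MP_50bb2e_nt.MT

/-- `ord_v` is odd on the class `q`. -/
def OddAt {F : Type} [Field F] [NumberField F] (v : Pr F) (q : Quad F) : Prop :=
  ∃ d : Fˣ, cls d = q ∧ Odd (WithZero.log (v.valuation F (d : F)))

open Classical in
/-- The finite set of the primes with odd order. -/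
noncomputable def sp {F : Type} [Field F] [NumberField F] (q : Quad F) : Finset (Pr F) :=
  if h : {v : Pr F | OddAt v q}.Finite then h.toFinset else ∅

/-- Norm of a finite set of primes (a squarefree ideal). -/
noncomputable def nrm {F : Type} [Field F] [NumberField F] (s : Finset (Pr F)) : ℕ := ∏ v ∈ s, nm v

/-- positive upper density (in terms of `X`) -/
def PosUpper {F : Type} [Field F] [NumberField F] (E : Set (Quad F)) : Prop :=
  ∃ c : ℝ, 0 < c ∧ ∃ᶠ X : ℝ in atTop, c * X ≤ (count E X : ℝ)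

/-- nonzero ideals of norm at most `X` -/
def idealsLE (F : Type) [Field F] [NumberField F] (X : ℝ) : Set (Ideal (𝓞 F)) :=
  {I | I ≠ ⊥ ∧ (Ideal.absNorm I : ℝ) ≤ X}

/-- ORD: basic facts on `OddAt` and `sp`. -/
def OrdS : Prop := ∀ (F : Type) [Field F] [NumberField F],
  (∀ (v : Pr F) (d : Fˣ), OddAt v (cls d) ↔ Odd (WithZero.log (v.valuation F (d : F)))) ∧
  (∀ (v : Pr F) (q : Quad F), v ∈ sp q ↔ OddAt v q) ∧
  (∀ (v : Pr F) (q q' : Quad F), v ∈ sp (q * q') ↔ ¬ (v ∈ sp q ↔ v ∈ sp q')) ∧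
  (∀ q : Quad F, q * q = 1)

/-- CNT: number of ideals. -/
def CntS : Prop := ∀ (F : Type) [Field F] [NumberField F],
  (∀ X : ℝ, (idealsLE F X).Finite) ∧
  (∃ C : ℝ, 0 < C ∧ ∀ X : ℝ, 0 ≤ X → ((idealsLE F X).ncard : ℝ) ≤ C * X) ∧
  (∃ c : ℝ, 0 < c ∧ ∀ᶠ X : ℝ in atTop, c * X ≤ ((idealsLE F X).ncard : ℝ))

/-- FCN: number of finite sets of primes (squarefree ideals). -/
def FcnS : Prop := ∀ (F : Type) [Field F] [NumberField F],
  (∀ X : ℝ, {s : Finset (Pr F) | (nrm s : ℝ) ≤ X}.Finite) ∧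
  (∃ C : ℝ, 0 < C ∧ ∀ X : ℝ, 0 ≤ X → (({s : Finset (Pr F) | (nrm s : ℝ) ≤ X}).ncard : ℝ) ≤ C * X)

/-- SIV: density of the ideals without prime factor in the finite set `P`. -/
def SivS : Prop := ∀ (F : Type) [Field F] [NumberField F], ∃ r : ℝ, 0 < r ∧ ∀ P : Finset (Pr F),
  Tendsto (fun X : ℝ =>
    (({I : Ideal (𝓞 F) | I ∈ idealsLE F X ∧ ∀ v ∈ P, ¬ v.asIdeal ∣ I}).ncard : ℝ) / X) atTop
    (𝓝 (r * ∏ v ∈ P, (1 - 1 / (nm v : ℝ))))

/-- PRD: divergence gives small products. -/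
def PrdS : Prop := ∀ (F : Type) [Field F] [NumberField F] (Q : Set (Pr F)),
  (¬ Summable (fun v : Q => (1 : ℝ) / (nm (v : Pr F) : ℝ))) →
  ∀ B : Set (Pr F), B.Finite → ∀ R : ℝ, ∀ e : ℝ, 0 < e →
  ∃ P : Finset (Pr F), (∀ v ∈ P, v ∈ Q ∧ v ∉ B ∧ R < (nm v : ℝ)) ∧
    ∏ v ∈ P, (1 - 1 / (nm v : ℝ)) < e

/-- SV2: the sieve for finite sets of primes. -/
def Sv2S : Prop := ∀ (F : Type) [Field F] [NumberField F] (Q : Set (Pr F)),
  (¬ Summable (fun v : Q => (1 : ℝ) / (nm (v : Pr F) : ℝ))) →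
  ∀ B : Set (Pr F), B.Finite → ∀ R : ℝ, ∀ e : ℝ, 0 < e →
  ∃ P : Finset (Pr F), (∀ v ∈ P, v ∈ Q ∧ v ∉ B ∧ R < (nm v : ℝ)) ∧
    ∀ᶠ X : ℝ in atTop,
      (({s : Finset (Pr F) | (nrm s : ℝ) ≤ X ∧ ∀ v ∈ P, v ∉ s}).ncard : ℝ) ≤ e * X

/-- KFI: bounded fibres of `sp`. -/
def KfiS : Prop := ∀ (F : Type) [Field F] [NumberField F],
  ∃ K : ℕ, 0 < K ∧ ∀ s : Finset (Pr F), {q : Quad F | sp q = s}.Finite ∧
    ({q : Quad F | sp q = s}).ncard ≤ K

/-- SQT: tails of the sum of `1/N^2`. -/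
def SqtS : Prop := ∀ (F : Type) [Field F] [NumberField F] (e : ℝ), 0 < e → ∃ B : ℝ,
  ∀ J : Finset (Ideal (𝓞 F)), (∀ I ∈ J, I ≠ ⊥ ∧ B < (Ideal.absNorm I : ℝ)) →
    ∑ I ∈ J, (1 : ℝ) / (Ideal.absNorm I : ℝ) ^ 2 ≤ e

/-- UPP: upper bound for the number of classes. -/
def UppS : Prop := ∀ (F : Type) [Field F] [NumberField F],
  (∀ X : ℝ, {q : Quad F | (nrm (sp q) : ℝ) ≤ X}.Finite) ∧
  (∃ C : ℝ, 0 < C ∧ ∀ X : ℝ, 0 ≤ X → (({q : Quad F | (nrm (sp q) : ℝ) ≤ X}).ncard : ℝ) ≤ C * X)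

/-- PRI: every nonzero principal integral ideal is a squarefree part times a square. -/
def PriS : Prop := ∀ (F : Type) [Field F] [NumberField F] (a : 𝓞 F), a ≠ 0 →
  ∃ (q : Quad F) (b : Ideal (𝓞 F)), b ≠ ⊥ ∧
    Ideal.span {a} = (∏ v ∈ sp q, v.asIdeal) * b ^ 2 ∧
    (Ideal.absNorm (Ideal.span {a}) : ℕ) = nrm (sp q) * (Ideal.absNorm b) ^ 2

/-- LOW: lower bound for the number of classes. -/
def LowS : Prop := ∀ (F : Type) [Field F] [NumberField F],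
  ∃ c : ℝ, 0 < c ∧ ∀ᶠ X : ℝ in atTop, c * X ≤ (({q : Quad F | (nrm (sp q) : ℝ) ≤ X}).ncard : ℝ)

/-- HEN: local squares. -/
def HenS : Prop := ∀ (F : Type) [Field F] [NumberField F] (v : Pr F) (x : v.adicCompletion F),
  Valued.v x < 1 → IsSquare (1 + 4 * x)

/-- LFI: at a finite place triviality defines a subgroup of finite index. -/
def LfiS : Prop := ∀ (F : Type) [Field F] [NumberField F] (v : Pr F),
  ∃ H : Subgroup (Quad F), H.FiniteIndex ∧ ∀ q, q ∈ H ↔ TrivAt (Sum.inl v) q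

/-- LIN: the same at an infinite place. -/
def LinS : Prop := ∀ (F : Type) [Field F] [NumberField F] (w : InfinitePlace F),
  ∃ H : Subgroup (Quad F), H.FiniteIndex ∧ ∀ q, q ∈ H ↔ TrivAt (Sum.inr w) q

/-- CEX: facts on the conductor exponent. -/
def CexS : Prop := ∀ (F : Type) [Field F] [NumberField F],
  {v : Pr F | v.valuation F 2 ≠ 1}.Finite ∧
  (∀ (v : Pr F) (q : Quad F), v.valuation F 2 = 1 →
    (OddAt v q → condExp v q = 1) ∧ (¬ OddAt v q → condExp v q = 0)) ∧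
  (∀ v : Pr F, ∃ b : ℕ, ∀ q : Quad F, condExp v q ≤ b) ∧
  (∀ (v : Pr F) (q : Quad F), TrivAt (Sum.inl v) q → condExp v q = 0) ∧
  (∀ (v : Pr F) (q : Quad F), TrivAt (Sum.inl v) q → ¬ OddAt v q)

/-- CND: the norm of the conductor and the norm of the odd part are comparable. -/
def CndS : Prop := ∀ (F : Type) [Field F] [NumberField F],
  (∃ C : ℝ, 1 ≤ C ∧ ∀ q : Quad F, (nrm (sp q) : ℝ) ≤ C * (condNorm q : ℝ) ∧
    (condNorm q : ℝ) ≤ C * (nrm (sp q) : ℝ)) ∧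
  (∀ q : Quad F, 1 ≤ condNorm q) ∧
  (∀ q : Quad F, (∀ v : Pr F, v.valuation F 2 ≠ 1 → TrivAt (Sum.inl v) q) →
    {u : Pr F | condExp u q ≠ 0} = {u : Pr F | OddAt u q})

/-- CQN: counting by conductor. -/
def CqnS : Prop := ∀ (F : Type) [Field F] [NumberField F],
  (∀ X : ℝ, {q : Quad F | (condNorm q : ℝ) ≤ X}.Finite) ∧
  (∃ C : ℝ, 0 < C ∧ ∀ X : ℝ, 0 ≤ X → (count (Set.univ : Set (Quad F)) X : ℝ) ≤ C * X) ∧
  (∃ c : ℝ, 0 < c ∧ ∀ᶠ X : ℝ in atTop, c * X ≤ (count (Set.univ : Set (Quad F)) X : ℝ)) ∧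
  (∀ q' : Quad F, ∃ C : ℝ, 1 ≤ C ∧ ∀ q : Quad F, (condNorm (q * q') : ℝ) ≤ C * (condNorm q : ℝ))

/-- STEP: one more dimension. -/
def StepS : Prop := ∀ (F : Type) [Field F] [NumberField F] (E : Set (Quad F)), PosUpper E →
  ∀ (Q : Set (Pr F)), (¬ Summable (fun v : Q => (1 : ℝ) / (nm (v : Pr F) : ℝ))) →
  ∀ B : Set (Pr F), B.Finite → ∀ H : Subgroup (Quad F), H.FiniteIndex →
  ∃ (psi : Quad F) (v w : Pr F), psi ∈ H ∧ v ≠ w ∧ v ∈ Q ∧ w ∈ Q ∧ v ∉ B ∧ w ∉ B ∧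
    {u : Pr F | OddAt u psi} = {v, w} ∧ PosUpper {q : Quad F | q ∈ E ∧ q * psi ∈ E}

/-- SEQ: the tower. -/
def SeqS : Prop := ∀ (F : Type) [Field F] [NumberField F] (E : Set (Quad F)), PosUpper E →
  ∀ R : Rule F, ∃ psi : ℕ → Quad F, Obeys R psi ∧
    ∀ k : ℕ, PosUpper {q : Quad F | ∀ I ∈ (Finset.range k).powerset, q * ∏ i ∈ I, psi i ∈ E}

/-- `D r`: order less than `r` for 100 percent. -/
def D {F : Type} [Field F] [NumberField F] (o : Quad F → ℕ) (r : ℕ) : Prop :=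
  DensityOne {q | o q < r} (Set.univ : Set (Quad F))

/-- DEN: density one among all classes and positive upper density of the complement. -/
def DenS : Prop := ∀ (F : Type) [Field F] [NumberField F],
  (∀ B : Set (Quad F), DensityOne B (Set.univ : Set (Quad F)) ↔ ¬ PosUpper Bᶜ) ∧
  (∀ (E : Set (Quad F)) (q' : Quad F), PosUpper {q | q * q' ∈ E} → PosUpper E) ∧
  (∀ E E' : Set (Quad F), PosUpper (E ∪ E') → PosUpper E ∨ PosUpper E')

/-- TWR: the tower criterion. -/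
def TwrS : Prop := ∀ (F : Type) [Field F] [NumberField F] (o : Quad F → ℕ) (r : ℕ) (R : Rule F),
  D o r ↔ ∀ psi : ℕ → Quad F, Obeys R psi →
    ∃ k : ℕ, DensityOne {q | towerOrder o psi k q < r * 2 ^ k} (Set.univ : Set (Quad F))

/-- FAM: finite families of twists. -/
def FamS : Prop := ∀ (F : Type) [Field F] [NumberField F] (o : Quad F → ℕ) (r : ℕ),
  D o r ↔ ∀ Psi : Set (Quad F), Psi.Finite →
    DensityOne {q | ∀ psi ∈ Psi, o (q * psi) < r} (Set.univ : Set (Quad F))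

/-- QON: question Q1 is `D 2`. -/
def QonS : Prop := ∀ (F : Type) [Field F] [NumberField F] (o : Quad F → ℕ), LocalParity o →
  (Q1 o ↔ D o 2)

end Pool.Agent.Lib.MP_50bb2e_nt.MT
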